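import Mathlib

/-!
Abstract parity pointer game (helper69's compressed form) behind the lower bound
`f(w) ≥ ⌊(8w+1)/5⌋` for MP_7950b2_co.

Sites are `1,2,3,…`; edge `e` joins the sites `e` and `e+1`.
-/

namespace H66Tok

/-- State of the abstract game: `n e` = number of tokens on edge `e`,
`M z` = level of site `z`, `k 0`, `k 1` = number of even and odd colours in use. -/
structure St where
  n : ℕ → ℕ
  M : ℕ → ℕ
  k : ℕ → ℕ

/-- token played at site `z ≥ 1`, put on the left edge `z-1`. -/
def St.playL (s : St) (z : ℕ) : St where
  n := fun e => if e + 1 = z then s.n e + 1 else s.n e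
  M := fun y => if y = z then s.M y + 1 else if y + 1 = z then max (s.M y) (s.n y + 1) else s.M y
  k := s.k

/-- token played at site `z`, put on the right edge `z`. -/
def St.playR (s : St) (z : ℕ) : St where
  n := fun e => if e = z then s.n e + 1 else s.n e
  M := fun y => if y = z then s.M y + 1 else if y = z + 1 then max (s.M y) (s.n z + 1) else s.M y
  k := s.k

/-- one more colour of parity `i`. -/
def St.addk (s : St) (i : ℕ) : St where
  n := s.n
  M := s.M
  k := fun j => if j = i then s.k j + 1 else s.k j

/-- a new colour is used at `z`; Spoiler puts it left (`d = true`) or right (`d = false`). -/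
def St.new (s : St) (z : ℕ) (d : Bool) : St :=
  if d then (s.playL z).addk ((z - 1) % 2) else (s.playR z).addk (z % 2)

/-- Spoiler wins the abstract game from `s`, width `w`, against an algorithm with `K` colours. -/
inductive SpWin (w K : ℕ) : St → Prop
  | step (s : St) (z : ℕ) (d : Bool) (hz : 1 ≤ z) (hM : s.M z < w)
      (hL : s.n (z - 1) < s.k ((z - 1) % 2) → SpWin w K (s.playL z))
      (hR : s.n z < s.k (z % 2) → SpWin w K (s.playR z))
      (hN : s.k 0 + s.k 1 < K → SpWin w K (s.new z d)) : SpWin w K s

/-- The starting state. -/
def St.init : St := ⟨fun _ => 0, fun _ => 0, fun _ => 0⟩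

end H66Tok
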