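import Mathlib

/-!
The online colouring game of tokens on the real line (MP_7950b2_co): the model.
-/

namespace H66Tok

/-- The token graph of a finite sequence of tokens (given by their points): the vertices are the
tokens, two different tokens are adjacent iff their points are at distance less than `1`. -/
def tokenGraph (l : List ℝ) : SimpleGraph (Fin l.length) where
  Adj i j := i ≠ j ∧ |l.get i - l.get j| < 1
  symm := ⟨by
    intro i j h
    exact ⟨h.1.symm, by rw [abs_sub_comm]; exact h.2⟩⟩
  loopless := ⟨fun i h => h.1 rfl⟩

/-- Spoiler's restriction: the token graph has chromatic number at most `w`. -/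
def Legal (w : ℕ) (l : List ℝ) : Prop := (tokenGraph l).Colorable w

/-- A (deterministic) strategy of Algorithm: given the earlier tokens with their points and
colours (newest first) and the point of the new token, the colour of the new token. -/
abbrev Strategy := List (ℝ × ℕ) → ℝ → ℕ

/-- The tokens of the play `l` (newest first) together with the colours given by `σ`. -/
def history (σ : Strategy) : List ℝ → List (ℝ × ℕ)
  | [] => []
  | x :: l => (x, σ (history σ l) x) :: history σ l

/-- `σ` never uses more than `k` colours and is always proper, against every play of Spoiler
whose token graph has chromatic number at most `w`. -/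
def Handles (w k : ℕ) (σ : Strategy) : Prop :=
  ∀ l : List ℝ, Legal w l →
    (history σ l).Pairwise (fun s t => |s.1 - t.1| < 1 → s.2 ≠ t.2) ∧
    ((history σ l).map Prod.snd).toFinset.card ≤ k

/-- The value `f(w)`: the least `k` such that Algorithm has a strategy that never uses more than
`k` colours. -/
noncomputable def f (w : ℕ) : ℕ := sInf {k : ℕ | ∃ σ : Strategy, Handles w k σ}

end H66Tok
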