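import Mathlib
import Pool.Agent.H66.TokModel

/-!
The online colouring game on the real line (MP_7950b2_co): a
finite sequence of tokens with at most `w` tokens in every open unit interval has a
`w`-colourable token graph.
-/

namespace H66Tok

open Finset

theorem card_filter_get (p : ℝ → Prop) [DecidablePred p] (l : List ℝ) :
    ((univ : Finset (Fin l.length)).filter (fun i => p (l.get i))).card = l.countP (fun x => decide (p x)) := by
  rw [Finset.card_filter]
  induction l with
  | nil => simp
  | cons x l ih =>
    rw [List.countP_cons, ← ih]
    rw [show (∑ i : Fin (x :: l).length, if p ((x :: l).get i) then 1 else 0) =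
      ∑ i : Fin (l.length + 1), if p ((x :: l).get i) then 1 else 0 from rfl]
    rw [Fin.sum_univ_succ]
    simp [add_comm]

open Classical in
/-- At most `w` tokens in every open unit interval: the token graph is `w`-colourable. -/
theorem legal_of_windows (w : ℕ) (l : List ℝ)
    (h : ∀ a : ℝ, l.countP (fun x => decide (a < x ∧ x < a + 1)) ≤ w) : Legal w l := by
  rcases Nat.eq_zero_or_pos w with hw | hw
  · -- no tokens at all
    subst hw
    cases l with
    | nil =>
      exact ⟨SimpleGraph.Coloring.mk (fun i => i.elim0) (fun {i} => i.elim0)⟩
    | cons x l =>
      exfalso
      have := h (x - 1 / 2)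
      rw [List.countP_cons] at this
      have hx : x < x - 2⁻¹ + 1 := by linarith
      simp at this
      exact absurd hx (not_lt.mpr this.2)
  · let key : Fin l.length → ℝ ×ₗ Fin l.length := fun i => toLex (l.get i, i)
    have key_inj : Function.Injective key := by
      intro i j hij
      have := congrArg (fun x => (ofLex x).2) hij
      simpa [key] using this
    let r : Fin l.length → ℕ := fun i => (univ.filter (fun j => key j < key i)).card
    -- colour by rank modulo w
    refine ⟨SimpleGraph.Coloring.mk (fun i => (⟨r i % w, Nat.mod_lt _ hw⟩ : Fin w)) ?_⟩
    intro i j hadj heq
    have hmod : r i % w = r j % w := by simpa using congrArg Fin.val heq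
    -- wlog key i < key j
    have main : ∀ i j : Fin l.length, key i < key j → |l.get i - l.get j| < 1 →
        r i % w = r j % w → False := by
      intro i j hlt hd hm
      -- the set between
      have hsplit : (univ.filter (fun k => key k < key j)) =
          (univ.filter (fun k => key k < key i)) ∪ (univ.filter (fun k => key i ≤ key k ∧ key k < key j)) := by
        ext k
        simp only [mem_filter, mem_univ, true_and, mem_union]
        constructor
        · intro hk
          rcases lt_or_ge (key k) (key i) with h1 | h1
          · exact Or.inl h1
          · exact Or.inr ⟨h1, hk⟩
        · rintro (h1 | h1)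
          · exact h1.trans hlt
          · exact h1.2
      have hdisj : Disjoint (univ.filter (fun k => key k < key i))
          (univ.filter (fun k => key i ≤ key k ∧ key k < key j)) := by
        rw [Finset.disjoint_filter]
        intro k _ h1 h2
        exact absurd h1 (not_lt.mpr h2.1)
      have hcard : r j = r i + (univ.filter (fun k => key i ≤ key k ∧ key k < key j)).card := by
        change (univ.filter (fun k => key k < key j)).card = _
        rw [hsplit, Finset.card_union_of_disjoint hdisj]
      have hpos : 0 < (univ.filter (fun k => key i ≤ key k ∧ key k < key j)).card := by
        apply Finset.card_pos.mpr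
        exact ⟨i, by simp [hlt]⟩
      have hge : w ≤ (univ.filter (fun k => key i ≤ key k ∧ key k < key j)).card := by
        have h1 : (univ.filter (fun k => key i ≤ key k ∧ key k < key j)).card % w = 0 := by
          rw [hcard] at hm
          have : (r i + (univ.filter (fun k => key i ≤ key k ∧ key k < key j)).card) ≡ r i + 0 [MOD w] := by
            change _ % w = _ % w
            rw [← hm]; simp
          have := Nat.ModEq.add_left_cancel' (r i) this
          simpa [Nat.ModEq] using this
        exact Nat.le_of_dvd hpos (Nat.dvd_of_mod_eq_zero h1)
      -- all of these and j lie in one open unit interval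
      set a : ℝ := (l.get i + l.get j - 1) / 2 with ha
      have hle : ∀ k, key i ≤ key k → key k ≤ key j → l.get i ≤ l.get k ∧ l.get k ≤ l.get j := by
        intro k h1 h2
        constructor
        · rcases (Prod.Lex.le_iff.mp h1) with h | h
          · exact le_of_lt h
          · exact le_of_eq h.1
        · rcases (Prod.Lex.le_iff.mp h2) with h | h
          · exact le_of_lt h
          · exact le_of_eq h.1
      have hij := hle j hlt.le le_rfl
      have hd' : l.get j - l.get i < 1 := by
        have := (abs_lt.mp hd).1
        linarith
      have hsub : insert j (univ.filter (fun k => key i ≤ key k ∧ key k < key j)) ⊆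
          (univ.filter (fun k => a < l.get k ∧ l.get k < a + 1)) := by
        intro k hk
        rw [Finset.mem_insert] at hk
        have hk' : key i ≤ key k ∧ key k ≤ key j := by
          rcases hk with rfl | hk
          · exact ⟨hlt.le, le_rfl⟩
          · simp only [mem_filter, mem_univ, true_and] at hk
            exact ⟨hk.1, hk.2.le⟩
        have := hle k hk'.1 hk'.2
        simp only [mem_filter, mem_univ, true_and]
        constructor <;> rw [ha] <;> linarith
      have hc := Finset.card_le_card hsub
      rw [Finset.card_insert_of_notMem (by simp)] at hc
      have hwin := h a
      rw [← card_filter_get (fun x => a < x ∧ x < a + 1) l] at hwin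
      omega
    rcases lt_trichotomy (key i) (key j) with h1 | h1 | h1
    · exact main i j h1 hadj.2 hmod
    · exact hadj.1 (key_inj h1)
    · exact main j i h1 (by rw [abs_sub_comm]; exact hadj.2) hmod.symm

end H66Tok
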