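import Mathlib
import Pool.Agent.H66.TokDefs
import Pool.Agent.H66.TokLegal

/-!
From the abstract parity pointer game to the online colouring game on the real line.
-/

namespace H66Tok

open Finset

/-- Bookkeeping record for a token: site, offset, colour, type (`true` = right). -/
structure Tok where
  z : ℕ
  t : ℝ
  c : ℕ
  r : Bool

noncomputable def Tok.pos (x : Tok) : ℝ := x.z + x.t

def Tok.edge (x : Tok) : ℕ := if x.r then x.z else x.z - 1

/-- number of recorded tokens in the open unit interval starting at `a` -/
noncomputable def win (T : List Tok) (a : ℝ) : ℕ :=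
  T.countP (fun x => decide (a < x.pos ∧ x.pos < a + 1))

/-- number of recorded tokens on edge `e` -/
def onEdge (T : List Tok) (e : ℕ) : ℕ := T.countP (fun x => decide (x.edge = e))

structure Geo (T : List Tok) (f ε : ℝ) : Prop where
  heps : 0 < ε
  hf0 : 0 < f - ε
  hf1 : f + ε < 1
  hz : ∀ x ∈ T, 1 ≤ x.z
  ht : ∀ x ∈ T, 0 < x.t ∧ x.t < 1
  hr : ∀ x ∈ T, x.r = true → f + ε ≤ x.t
  hl : ∀ x ∈ T, x.r = false → x.t ≤ f - ε

theorem win_eq_onEdge {T : List Tok} {f ε : ℝ} (g : Geo T f ε) (e : ℕ) (a : ℝ)
    (h1 : (e : ℝ) + f - ε < a) (h2 : a < (e : ℝ) + f + ε) : win T a = onEdge T e := by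
  apply List.countP_congr
  intro x hx
  have hz := g.hz x hx
  have ht := g.ht x hx
  have hf0 := g.hf0
  have hf1 := g.hf1
  have heps := g.heps
  simp only [decide_eq_true_eq, Tok.pos, Tok.edge]
  cases hrx : x.r with
  | true =>
    have hr := g.hr x hx hrx
    simp only [if_true]
    constructor
    · rintro ⟨h3, h4⟩
      by_contra hne
      rcases Nat.lt_or_gt_of_ne hne with h | h
      · have : (x.z : ℝ) + 1 ≤ e := by exact_mod_cast h
        linarith
      · have : (e : ℝ) + 1 ≤ x.z := by exact_mod_cast h
        linarith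
    · intro h
      have : (x.z : ℝ) = e := by exact_mod_cast h
      constructor <;> linarith
  | false =>
    have hl := g.hl x hx hrx
    simp only [Bool.false_eq_true, if_false]
    constructor
    · rintro ⟨h3, h4⟩
      by_contra hne
      rcases Nat.lt_or_gt_of_ne hne with h | h
      · have h5 : x.z ≤ e := by omega
        have : (x.z : ℝ) ≤ e := by exact_mod_cast h5
        linarith
      · have h5 : e + 2 ≤ x.z := by omega
        have : (e : ℝ) + 2 ≤ x.z := by exact_mod_cast h5
        linarith
    · intro h
      have h5 : x.z = e + 1 := by omega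
      have : (x.z : ℝ) = e + 1 := by exact_mod_cast h5
      constructor <;> linarith

structure Inv (σ : Strategy) (w : ℕ) (s : St) (T : List Tok) (f ε : ℝ) (par : ℕ → ℕ) : Prop where
  geo : Geo T f ε
  hist : T.map (fun x => (x.pos, x.c)) = history σ (T.map Tok.pos)
  hpar : ∀ x ∈ T, x.edge % 2 = par x.c
  hn : ∀ e, s.n e = onEdge T e
  hnodup : ∀ e, ((T.filter (fun x => x.edge = e)).map Tok.c).Nodup
  hk : ∀ i < 2, s.k i = ((T.map Tok.c).toFinset.filter (fun c => par c = i)).card
  hM : ∀ z : ℕ, 1 ≤ z → ∀ a : ℝ, a < z + f → z + f < a + 1 → win T a ≤ s.M z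
  hw : ∀ a, win T a ≤ w

theorem win_cons (x : Tok) (T : List Tok) (a : ℝ) :
    win (x :: T) a = win T a + if (a < x.pos ∧ x.pos < a + 1) then 1 else 0 := by
  unfold win
  rw [List.countP_cons]
  simp

theorem onEdge_cons (x : Tok) (T : List Tok) (e : ℕ) :
    onEdge (x :: T) e = onEdge T e + if x.edge = e then 1 else 0 := by
  unfold onEdge
  rw [List.countP_cons]
  simp

theorem geo_R {T : List Tok} {f ε : ℝ} (g : Geo T f ε) (z c : ℕ) (hz : 1 ≤ z) :
    Geo (⟨z, f, c, true⟩ :: T) (f - ε / 2) (ε / 4) := by
  have hf0 := g.hf0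
  have hf1 := g.hf1
  have heps := g.heps
  refine ⟨by linarith, by linarith, by linarith, ?_, ?_, ?_, ?_⟩
  · intro x hx
    rcases List.mem_cons.mp hx with rfl | hx
    · exact hz
    · exact g.hz x hx
  · intro x hx
    rcases List.mem_cons.mp hx with rfl | hx
    · exact ⟨by simp only; linarith, by simp only; linarith⟩
    · exact g.ht x hx
  · intro x hx hr
    rcases List.mem_cons.mp hx with rfl | hx
    · simp only; linarith
    · have := g.hr x hx hr
      linarith
  · intro x hx hr
    rcases List.mem_cons.mp hx with rfl | hx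
    · simp at hr
    · have := g.hl x hx hr
      linarith

theorem geo_L {T : List Tok} {f ε : ℝ} (g : Geo T f ε) (z c : ℕ) (hz : 1 ≤ z) :
    Geo (⟨z, f, c, false⟩ :: T) (f + ε / 2) (ε / 4) := by
  have hf0 := g.hf0
  have hf1 := g.hf1
  have heps := g.heps
  refine ⟨by linarith, by linarith, by linarith, ?_, ?_, ?_, ?_⟩
  · intro x hx
    rcases List.mem_cons.mp hx with rfl | hx
    · exact hz
    · exact g.hz x hx
  · intro x hx
    rcases List.mem_cons.mp hx with rfl | hx
    · exact ⟨by simp only; linarith, by simp only; linarith⟩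
    · exact g.ht x hx
  · intro x hx hr
    rcases List.mem_cons.mp hx with rfl | hx
    · simp at hr
    · have := g.hr x hx hr
      linarith
  · intro x hx hr
    rcases List.mem_cons.mp hx with rfl | hx
    · simp only; linarith
    · have := g.hl x hx hr
      linarith

/-- tokens on the right edge `z` conflict with a token at `z + f` -/
theorem near_right {T : List Tok} {f ε : ℝ} (g : Geo T f ε) (z : ℕ) (x : Tok) (hx : x ∈ T)
    (he : x.edge = z) : |(z : ℝ) + f - x.pos| < 1 := by
  have hz := g.hz x hx
  have ht := g.ht x hx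
  have hf0 := g.hf0
  have hf1 := g.hf1
  have heps := g.heps
  unfold Tok.edge at he
  unfold Tok.pos
  rw [abs_lt]
  cases hrx : x.r with
  | true =>
    rw [hrx] at he
    simp only [if_true] at he
    have : (x.z : ℝ) = z := by exact_mod_cast he
    constructor <;> linarith
  | false =>
    rw [hrx] at he
    have hl := g.hl x hx hrx
    simp only [Bool.false_eq_true, if_false] at he
    have h5 : x.z = z + 1 := by omega
    have : (x.z : ℝ) = z + 1 := by exact_mod_cast h5
    constructor <;> linarith

/-- tokens on the left edge `z - 1` conflict with a token at `z + f` -/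
theorem near_left {T : List Tok} {f ε : ℝ} (g : Geo T f ε) (z : ℕ) (hz1 : 1 ≤ z) (x : Tok)
    (hx : x ∈ T) (he : x.edge = z - 1) : |(z : ℝ) + f - x.pos| < 1 := by
  have hz := g.hz x hx
  have ht := g.ht x hx
  have hf0 := g.hf0
  have hf1 := g.hf1
  have heps := g.heps
  unfold Tok.edge at he
  unfold Tok.pos
  rw [abs_lt]
  cases hrx : x.r with
  | true =>
    rw [hrx] at he
    have hr := g.hr x hx hrx
    simp only [if_true] at he
    have h5 : x.z + 1 = z := by omega
    have : (x.z : ℝ) + 1 = z := by exact_mod_cast h5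
    constructor <;> linarith
  | false =>
    rw [hrx] at he
    simp only [Bool.false_eq_true, if_false] at he
    have h5 : x.z = z := by omega
    have : (x.z : ℝ) = z := by exact_mod_cast h5
    constructor <;> linarith

theorem inv_R {σ : Strategy} {w : ℕ} {s : St} {T : List Tok} {f ε : ℝ} {par : ℕ → ℕ}
    (I : Inv σ w s T f ε par) (z c : ℕ) (hz : 1 ≤ z) (hMz : s.M z < w)
    (hc : c = σ (history σ (T.map Tok.pos)) (z + f))
    (hfresh : ∀ x ∈ T, |(z : ℝ) + f - x.pos| < 1 → c ≠ x.c)
    (par' : ℕ → ℕ) (hp : ∀ x ∈ T, par' x.c = par x.c) (hpc : par' c = z % 2)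
    (s' : St) (hn' : s'.n = (s.playR z).n) (hM' : s'.M = (s.playR z).M)
    (hk' : ∀ i < 2, s'.k i = (((⟨z, f, c, true⟩ :: T : List Tok).map Tok.c).toFinset.filter
      (fun c => par' c = i)).card) :
    Inv σ w s' (⟨z, f, c, true⟩ :: T) (f - ε / 2) (ε / 4) par' := by
  have g := I.geo
  have hf0 := g.hf0
  have hf1 := g.hf1
  have heps := g.heps
  have hedge : (⟨z, f, c, true⟩ : Tok).edge = z := by simp [Tok.edge]
  have hpos : (⟨z, f, c, true⟩ : Tok).pos = z + f := by simp [Tok.pos]
  have hnM1 : ∀ e : ℕ, 1 ≤ e → onEdge T e ≤ s.M e := by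
    intro e he
    rw [← win_eq_onEdge g e (e + f - ε / 2) (by linarith) (by linarith)]
    exact I.hM e he _ (by linarith) (by linarith)
  have hnM2 : ∀ e : ℕ, onEdge T e ≤ s.M (e + 1) := by
    intro e
    rw [← win_eq_onEdge g e (e + f + ε / 2) (by linarith) (by linarith)]
    exact I.hM (e + 1) (by omega) _ (by push_cast; linarith) (by push_cast; linarith)
  refine ⟨geo_R g z c hz, ?_, ?_, ?_, ?_, hk', ?_, ?_⟩
  · rw [List.map_cons, List.map_cons, hpos, history, I.hist, ← hc]
  · intro x hx
    rcases List.mem_cons.mp hx with rfl | hx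
    · rw [hedge, hpc]
    · rw [I.hpar x hx, hp x hx]
  · intro e
    rw [hn', onEdge_cons, hedge, ← I.hn e]
    simp only [St.playR]
    by_cases h : e = z
    · subst h; simp
    · rw [if_neg h, if_neg (fun h' => h h'.symm)]; rfl
  · intro e
    rw [List.filter_cons]
    by_cases h : z = e
    · subst h
      rw [if_pos (by simp [hedge]), List.map_cons, List.nodup_cons]
      refine ⟨?_, I.hnodup z⟩
      intro hmem
      rw [List.mem_map] at hmem
      obtain ⟨x, hx, hxc⟩ := hmem
      rw [List.mem_filter] at hx
      have hxe : x.edge = z := by simpa using hx.2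
      exact hfresh x hx.1 (near_right g z x hx.1 hxe) hxc.symm
    · rw [if_neg (by simp [hedge, h])]
      exact I.hnodup e
  · intro y hy a ha1 ha2
    rw [win_cons, hM', hpos]
    simp only [St.playR]
    by_cases hin : (y : ℝ) + f < a + 1
    · have hwin := I.hM y hy a (by linarith) hin
      by_cases htok : a < (z : ℝ) + f ∧ (z : ℝ) + f < a + 1
      · have hyz : y = z := by
          by_contra hne
          rcases Nat.lt_or_gt_of_ne hne with h | h
          · have : (y : ℝ) + 1 ≤ z := by exact_mod_cast h
            linarith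
          · have : (z : ℝ) + 1 ≤ y := by exact_mod_cast h
            linarith
        subst hyz
        rw [if_pos htok, if_pos rfl]
        omega
      · rw [if_neg htok]
        split_ifs
        · omega
        · have := le_max_left (s.M y) (s.n z + 1); omega
        · omega
    · -- the window ends between the new and the old pointer
      have hin' : a + 1 ≤ (y : ℝ) + f := not_lt.mp hin
      obtain ⟨y', rfl⟩ : ∃ y', y = y' + 1 := ⟨y - 1, by omega⟩
      push_cast at ha1 ha2 hin'
      have hE := win_eq_onEdge g y' a (by linarith) (by linarith)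
      rw [hE]
      by_cases htok : a < (z : ℝ) + f ∧ (z : ℝ) + f < a + 1
      · have hyz : y' = z := by
          by_contra hne
          rcases Nat.lt_or_gt_of_ne hne with h | h
          · have : (y' : ℝ) + 1 ≤ z := by exact_mod_cast h
            linarith
          · have : (z : ℝ) + 1 ≤ y' := by exact_mod_cast h
            linarith
        subst hyz
        rw [if_pos htok, if_neg (by omega), if_pos rfl, I.hn y']
        exact le_max_right _ _
      · rw [if_neg htok]
        have h0 := hnM2 y'
        split_ifs
        · omega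
        · have := le_max_left (s.M (y' + 1)) (s.n z + 1); omega
        · omega
  · intro a
    rw [win_cons, hpos]
    by_cases htok : a < (z : ℝ) + f ∧ (z : ℝ) + f < a + 1
    · have := I.hM z hz a htok.1 htok.2
      rw [if_pos htok]; omega
    · rw [if_neg htok]; exact I.hw a

theorem inv_L {σ : Strategy} {w : ℕ} {s : St} {T : List Tok} {f ε : ℝ} {par : ℕ → ℕ}
    (I : Inv σ w s T f ε par) (z c : ℕ) (hz : 1 ≤ z) (hMz : s.M z < w)
    (hc : c = σ (history σ (T.map Tok.pos)) (z + f))
    (hfresh : ∀ x ∈ T, |(z : ℝ) + f - x.pos| < 1 → c ≠ x.c)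
    (par' : ℕ → ℕ) (hp : ∀ x ∈ T, par' x.c = par x.c) (hpc : par' c = (z - 1) % 2)
    (s' : St) (hn' : s'.n = (s.playL z).n) (hM' : s'.M = (s.playL z).M)
    (hk' : ∀ i < 2, s'.k i = (((⟨z, f, c, false⟩ :: T : List Tok).map Tok.c).toFinset.filter
      (fun c => par' c = i)).card) :
    Inv σ w s' (⟨z, f, c, false⟩ :: T) (f + ε / 2) (ε / 4) par' := by
  have g := I.geo
  have hf0 := g.hf0
  have hf1 := g.hf1
  have heps := g.heps
  have hedge : (⟨z, f, c, false⟩ : Tok).edge = z - 1 := by simp [Tok.edge]
  have hpos : (⟨z, f, c, false⟩ : Tok).pos = z + f := by simp [Tok.pos]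
  have hnM1 : ∀ e : ℕ, 1 ≤ e → onEdge T e ≤ s.M e := by
    intro e he
    rw [← win_eq_onEdge g e (e + f - ε / 2) (by linarith) (by linarith)]
    exact I.hM e he _ (by linarith) (by linarith)
  refine ⟨geo_L g z c hz, ?_, ?_, ?_, ?_, hk', ?_, ?_⟩
  · rw [List.map_cons, List.map_cons, hpos, history, I.hist, ← hc]
  · intro x hx
    rcases List.mem_cons.mp hx with rfl | hx
    · rw [hedge, hpc]
    · rw [I.hpar x hx, hp x hx]
  · intro e
    rw [hn', onEdge_cons, hedge, ← I.hn e]
    simp only [St.playL]
    by_cases h : e + 1 = z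
    · rw [if_pos h, if_pos (by omega)]
    · rw [if_neg h, if_neg (by omega)]; rfl
  · intro e
    rw [List.filter_cons]
    by_cases h : z - 1 = e
    · subst h
      rw [if_pos (by simp [hedge]), List.map_cons, List.nodup_cons]
      refine ⟨?_, I.hnodup (z - 1)⟩
      intro hmem
      rw [List.mem_map] at hmem
      obtain ⟨x, hx, hxc⟩ := hmem
      rw [List.mem_filter] at hx
      have hxe : x.edge = z - 1 := by simpa using hx.2
      exact hfresh x hx.1 (near_left g z hz x hx.1 hxe) hxc.symm
    · rw [if_neg (by simp [hedge, h])]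
      exact I.hnodup e
  · intro y hy a ha1 ha2
    rw [win_cons, hM', hpos]
    simp only [St.playL]
    by_cases hin : a < (y : ℝ) + f
    · have hwin := I.hM y hy a hin (by linarith)
      by_cases htok : a < (z : ℝ) + f ∧ (z : ℝ) + f < a + 1
      · have hyz : y = z := by
          by_contra hne
          rcases Nat.lt_or_gt_of_ne hne with h | h
          · have : (y : ℝ) + 1 ≤ z := by exact_mod_cast h
            linarith
          · have : (z : ℝ) + 1 ≤ y := by exact_mod_cast h
            linarith
        subst hyz
        rw [if_pos htok, if_pos rfl]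
        omega
      · rw [if_neg htok]
        split_ifs
        · omega
        · have := le_max_left (s.M y) (s.n y + 1); omega
        · omega
    · -- the window starts between the old and the new pointer
      have hin' : (y : ℝ) + f ≤ a := not_lt.mp hin
      have hE := win_eq_onEdge g y a (by linarith) (by linarith)
      rw [hE]
      by_cases htok : a < (z : ℝ) + f ∧ (z : ℝ) + f < a + 1
      · have hyz : y + 1 = z := by
          by_contra hne
          rcases Nat.lt_or_gt_of_ne hne with h | h
          · have : ((y : ℝ) + 1) + 1 ≤ z := by exact_mod_cast h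
            linarith
          · have h' : z ≤ y := by omega
            have : (z : ℝ) ≤ y := by exact_mod_cast h'
            linarith
        rw [if_pos htok, if_neg (by omega), if_pos hyz, I.hn y]
        exact le_max_right _ _
      · rw [if_neg htok]
        have h0 := hnM1 y hy
        split_ifs
        · omega
        · have := le_max_left (s.M y) (s.n y + 1); omega
        · omega
  · intro a
    rw [win_cons, hpos]
    by_cases htok : a < (z : ℝ) + f ∧ (z : ℝ) + f < a + 1
    · have := I.hM z hz a htok.1 htok.2
      rw [if_pos htok]; omega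
    · rw [if_neg htok]; exact I.hw a

end H66Tok
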