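import Mathlib
import Pool.Agent.H66.TokGame

/-!
Main theorem of the game layer: a win of Spoiler in the abstract parity pointer game forces
more than `K` colours in the game on the real line.
-/

namespace H66Tok

open Finset

theorem onEdge_eq_card {T : List Tok} {e : ℕ}
    (h : ((T.filter (fun x => x.edge = e)).map Tok.c).Nodup) :
    onEdge T e = ((T.filter (fun x => x.edge = e)).map Tok.c).toFinset.card := by
  rw [List.toFinset_card_of_nodup h, List.length_map, onEdge, List.countP_eq_length_filter]

theorem edge_lt {T : List Tok} {e c : ℕ} {par : ℕ → ℕ}
    (hpar : ∀ x ∈ T, x.edge % 2 = par x.c)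
    (hnodup : ((T.filter (fun x => x.edge = e)).map Tok.c).Nodup)
    (hcU : c ∈ (T.map Tok.c).toFinset) (hc : par c = e % 2)
    (hne : ∀ x ∈ T, x.edge = e → c ≠ x.c) :
    onEdge T e < ((T.map Tok.c).toFinset.filter (fun c => par c = e % 2)).card := by
  rw [onEdge_eq_card hnodup]
  apply Finset.card_lt_card
  rw [Finset.ssubset_iff_of_subset]
  · refine ⟨c, by simp [hc] at hcU ⊢; exact hcU, ?_⟩
    intro hmem
    rw [List.mem_toFinset, List.mem_map] at hmem
    obtain ⟨x, hx, hxc⟩ := hmem
    rw [List.mem_filter] at hx
    exact hne x hx.1 (by simpa using hx.2) hxc.symm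
  · intro b hb
    rw [List.mem_toFinset, List.mem_map] at hb
    obtain ⟨x, hx, rfl⟩ := hb
    rw [List.mem_filter] at hx
    have hxe : x.edge = e := by simpa using hx.2
    rw [Finset.mem_filter, List.mem_toFinset]
    exact ⟨List.mem_map_of_mem hx.1, by rw [← hpar x hx.1, hxe]⟩

theorem win_map (T : List Tok) (a : ℝ) :
    (T.map Tok.pos).countP (fun x => decide (a < x ∧ x < a + 1)) = win T a := by
  rw [List.countP_map]; rfl

theorem no_strategy {σ : Strategy} {w K : ℕ} (hσ : Handles w K σ) {s : St} (hs : SpWin w K s) :
    ∀ (T : List Tok) (f ε : ℝ) (par : ℕ → ℕ), Inv σ w s T f ε par → False := by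
  induction hs with
  | step s z d hz hM hL hR hN ihL ihR ihN =>
    intro T f ε par I
    have g := I.geo
    -- the new token and its colour
    set l : List ℝ := T.map Tok.pos with hl
    set x : ℝ := (z : ℝ) + f with hx
    set c : ℕ := σ (history σ l) x with hc
    have hlegal : Legal w (x :: l) := by
      apply legal_of_windows
      intro a
      rw [List.countP_cons, hl, win_map]
      by_cases h : a < x ∧ x < a + 1
      · have := I.hM z hz a h.1 h.2
        simp [h]; omega
      · have := I.hw a
        simp [h]; exact this
    obtain ⟨hpw, hcard⟩ := hσ (x :: l) hlegal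
    rw [history] at hpw hcard
    have hhead := (List.pairwise_cons.mp hpw).1
    have hfresh : ∀ y ∈ T, |(z : ℝ) + f - y.pos| < 1 → c ≠ y.c := by
      intro y hy hlt
      have hmem : (y.pos, y.c) ∈ history σ l := by
        rw [← I.hist]; exact List.mem_map_of_mem (f := fun x => (x.pos, x.c)) hy
      exact hhead _ hmem hlt
    have hsnd : (history σ l).map Prod.snd = T.map Tok.c := by
      rw [← I.hist, List.map_map]; rfl
    have hcard' : (insert c (T.map Tok.c).toFinset).card ≤ K := by
      rw [List.map_cons, hsnd, List.toFinset_cons] at hcard
      exact hcard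
    have hparU : ∀ b ∈ (T.map Tok.c).toFinset, par b < 2 := by
      intro b hb
      rw [List.mem_toFinset, List.mem_map] at hb
      obtain ⟨y, hy, rfl⟩ := hb
      rw [← I.hpar y hy]; exact Nat.mod_lt _ (by norm_num)
    by_cases hcU : c ∈ (T.map Tok.c).toFinset
    · -- an old colour
      have hp2 := hparU c hcU
      have hcases : par c = (z - 1) % 2 ∨ par c = z % 2 := by omega
      have hins : ∀ r : Bool, (((⟨z, f, c, r⟩ :: T : List Tok).map Tok.c).toFinset) =
          (T.map Tok.c).toFinset := by
        intro r
        rw [List.map_cons, List.toFinset_cons]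
        exact Finset.insert_eq_of_mem hcU
      rcases hcases with h | h
      · have hlt : s.n (z - 1) < s.k ((z - 1) % 2) := by
          rw [I.hn, I.hk _ (Nat.mod_lt _ (by norm_num))]
          exact edge_lt I.hpar (I.hnodup _) hcU h
            (fun y hy he => hfresh y hy (near_left g z hz y hy he))
        refine ihL hlt _ _ _ _ (inv_L I z c hz hM hc hfresh par (fun _ _ => rfl) h _ rfl rfl ?_)
        intro i hi
        rw [hins]
        exact I.hk i hi
      · have hlt : s.n z < s.k (z % 2) := by
          rw [I.hn, I.hk _ (Nat.mod_lt _ (by norm_num))]
          exact edge_lt I.hpar (I.hnodup _) hcU h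
            (fun y hy he => hfresh y hy (near_right g z y hy he))
        refine ihR hlt _ _ _ _ (inv_R I z c hz hM hc hfresh par (fun _ _ => rfl) h _ rfl rfl ?_)
        intro i hi
        rw [hins]
        exact I.hk i hi
    · -- a new colour
      have hsum : s.k 0 + s.k 1 = (T.map Tok.c).toFinset.card := by
        rw [I.hk 0 (by norm_num), I.hk 1 (by norm_num), ← Finset.card_union_of_disjoint]
        · congr 1
          ext b
          simp only [Finset.mem_union, Finset.mem_filter]
          constructor
          · rintro (h | h) <;> exact h.1
          · intro h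
            have := hparU b h
            have : par b = 0 ∨ par b = 1 := by omega
            tauto
        · rw [Finset.disjoint_filter]
          intro b _ h0 h1; omega
      have hlt : s.k 0 + s.k 1 < K := by
        rw [Finset.card_insert_of_notMem hcU] at hcard'
        omega
      have hcT : ∀ y ∈ T, y.c ≠ c := by
        intro y hy h
        apply hcU
        rw [List.mem_toFinset, ← h]
        exact List.mem_map_of_mem hy
      -- generic counting lemma for the updated parity function
      have hkk : ∀ (r : Bool) (v : ℕ) (i : ℕ), i < 2 →
          (((⟨z, f, c, r⟩ :: T : List Tok).map Tok.c).toFinset.filter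
            (fun b => Function.update par c v b = i)).card =
            if i = v then s.k i + 1 else s.k i := by
        intro r v i hi
        rw [List.map_cons, List.toFinset_cons]
        have hcongr : ((T.map Tok.c).toFinset.filter (fun b => Function.update par c v b = i)) =
            ((T.map Tok.c).toFinset.filter (fun b => par b = i)) := by
          apply Finset.filter_congr
          intro b hb
          have : b ≠ c := fun h => hcU (h ▸ hb)
          rw [Function.update_of_ne this]
        rw [Finset.filter_insert, hcongr]
        simp only [Function.update_self]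
        by_cases h : v = i
        · rw [if_pos h, if_pos h.symm, Finset.card_insert_of_notMem, I.hk i hi]
          intro hmem
          exact hcU (Finset.mem_filter.mp hmem).1
        · rw [if_neg h, if_neg (fun h' => h h'.symm), I.hk i hi]
      cases d with
      | true =>
        refine ihN hlt _ _ _ _ (inv_L I z c hz hM hc hfresh (Function.update par c ((z - 1) % 2))
          ?_ (Function.update_self ..) _ rfl rfl ?_)
        · intro y hy
          rw [Function.update_of_ne (hcT y hy)]
        · intro i hi
          rw [hkk false _ i hi]
          rfl
      | false =>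
        refine ihN hlt _ _ _ _ (inv_R I z c hz hM hc hfresh (Function.update par c (z % 2))
          ?_ (Function.update_self ..) _ rfl rfl ?_)
        · intro y hy
          rw [Function.update_of_ne (hcT y hy)]
        · intro i hi
          rw [hkk true _ i hi]
          rfl

theorem inv_init (σ : Strategy) (w : ℕ) : Inv σ w St.init [] (1 / 2) (1 / 4) (fun _ => 0) := by
  refine ⟨⟨by norm_num, by norm_num, by norm_num, ?_, ?_, ?_, ?_⟩, ?_, ?_, ?_, ?_, ?_, ?_, ?_⟩
  all_goals simp [history, St.init, onEdge, win]

/-- If Spoiler wins the abstract game against `K` colours, then Algorithm has no strategy with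
at most `K` colours. -/
theorem no_handles {w K : ℕ} (hs : SpWin w K St.init) (σ : Strategy) : ¬ Handles w K σ :=
  fun hσ => no_strategy hσ hs _ _ _ _ (inv_init σ w)

theorem Handles.mono {w k k' : ℕ} {σ : Strategy} (h : Handles w k σ) (hk : k ≤ k') :
    Handles w k' σ := fun l hl => ⟨(h l hl).1, (h l hl).2.trans hk⟩

end H66Tok
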