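import Mathlib
import Pool.Agent.H66.TokLegal
import Pool.Agent.H66.TokMain

/-!
First-fit handles every `w` with finitely many colours, so that the value `f w` is attained.
-/

namespace H66Tok

open Finset

theorem legal_tail {w : ℕ} {x : ℝ} {l : List ℝ} (h : Legal w (x :: l)) : Legal w l := by
  have φ : tokenGraph l →g tokenGraph (x :: l) :=
    { toFun := fun i => Fin.succ i
      map_rel' := by
        intro i j hij
        exact ⟨fun he => hij.1 (Fin.succ_injective _ he), hij.2⟩ }
  exact SimpleGraph.Colorable.of_hom φ h

/-- A window of tokens with pairwise distances less than one has at most `w` tokens. -/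
theorem window_le {w : ℕ} {l : List ℝ} (h : Legal w l) (p : ℝ → Prop) [DecidablePred p]
    (hp : ∀ a b, p a → p b → |a - b| < 1) : l.countP (fun x => decide (p x)) ≤ w := by
  rw [← card_filter_get p l]
  apply SimpleGraph.IsClique.card_le_of_colorable (G := tokenGraph l) _ h
  intro i hi j hj hij
  simp only [coe_filter, mem_univ, true_and, Set.mem_ofPred_eq] at hi hj
  exact ⟨hij, hp _ _ hi hj⟩

/-- First-fit. -/
noncomputable def firstFit : Strategy :=
  fun h x => sInf {c : ℕ | ∀ p ∈ h, |x - p.1| < 1 → p.2 ≠ c}

theorem history_fst (σ : Strategy) (l : List ℝ) : (history σ l).map Prod.fst = l := by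
  induction l with
  | nil => rfl
  | cons x l ih => simp [history, ih]

open Classical in
theorem firstFit_spec (h : List (ℝ × ℕ)) (x : ℝ) :
    (∀ p ∈ h, |x - p.1| < 1 → p.2 ≠ firstFit h x) ∧
      firstFit h x ≤ h.countP (fun p => decide (|x - p.1| < 1)) := by
  set S : Finset ℕ := ((h.filter (fun p => decide (|x - p.1| < 1))).map Prod.snd).toFinset with hS
  have hcard : S.card ≤ h.countP (fun p => decide (|x - p.1| < 1)) := by
    rw [List.countP_eq_length_filter, ← List.length_map (f := Prod.snd)]
    exact List.toFinset_card_le _
  have hlt : S.card < (range (h.countP (fun p => decide (|x - p.1| < 1)) + 1)).card := by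
    rw [card_range]; omega
  obtain ⟨c, hc, hcS⟩ := Finset.exists_mem_notMem_of_card_lt_card hlt
  have hmem : c ∈ {c : ℕ | ∀ p ∈ h, |x - p.1| < 1 → p.2 ≠ c} := by
    intro p hp hx he
    apply hcS
    rw [hS, List.mem_toFinset, ← he]
    exact List.mem_map_of_mem (List.mem_filter.mpr ⟨hp, by simpa using hx⟩)
  refine ⟨Nat.sInf_mem ⟨c, hmem⟩, (Nat.sInf_le hmem).trans ?_⟩
  rw [mem_range] at hc
  omega

open Classical in
theorem handles_firstFit (w : ℕ) : Handles w (2 * w + 1) firstFit := by
  have key : ∀ l, Legal w l →
      (history firstFit l).Pairwise (fun s t => |s.1 - t.1| < 1 → s.2 ≠ t.2) ∧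
      ∀ p ∈ history firstFit l, p.2 < 2 * w + 1 := by
    intro l
    induction l with
    | nil => intro _; simp [history]
    | cons x l ih =>
      intro hl
      obtain ⟨h1, h2⟩ := ih (legal_tail hl)
      obtain ⟨g1, g2⟩ := firstFit_spec (history firstFit l) x
      refine ⟨?_, ?_⟩
      · rw [history, List.pairwise_cons]
        exact ⟨fun p hp hx => (g1 p hp hx).symm, h1⟩
      · intro p hp
        rw [history, List.mem_cons] at hp
        rcases hp with rfl | hp
        · refine Nat.lt_succ_of_le (g2.trans ?_)
          have e1 : (history firstFit l).countP (fun p => decide (|x - p.1| < 1)) =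
              l.countP (fun y => decide (|x - y| < 1)) := by
            conv_rhs => rw [← history_fst firstFit l, List.countP_map]
            rfl
          rw [e1]
          have hle : l.countP (fun y => decide (|x - y| < 1)) ≤
              l.countP (fun y => decide (x - 1 < y ∧ y ≤ x)) +
                l.countP (fun y => decide (x ≤ y ∧ y < x + 1)) := by
            clear e1 g1 g2 h1 h2 ih hl
            induction l with
            | nil => simp
            | cons y l ih =>
              simp only [List.countP_cons]
              by_cases hy : |x - y| < 1
              · rw [abs_lt] at hy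
                rcases le_total y x with hyx | hyx
                · have : (x - 1 < y ∧ y ≤ x) := ⟨by linarith, hyx⟩
                  rw [decide_eq_true this]
                  simp only [if_true]
                  split_ifs <;> omega
                · have : (x ≤ y ∧ y < x + 1) := ⟨hyx, by linarith⟩
                  rw [decide_eq_true this]
                  simp only [if_true]
                  split_ifs <;> omega
              · rw [decide_eq_false hy]
                simp only [Bool.false_eq_true, if_false]
                omega
          have w1 := window_le (legal_tail hl) (fun y => x - 1 < y ∧ y ≤ x) (by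
            intro a b ha hb
            rw [abs_lt]; constructor <;> linarith [ha.1, ha.2, hb.1, hb.2])
          have w2 := window_le (legal_tail hl) (fun y => x ≤ y ∧ y < x + 1) (by
            intro a b ha hb
            rw [abs_lt]; constructor <;> linarith [ha.1, ha.2, hb.1, hb.2])
          omega
        · exact h2 p hp
  intro l hl
  obtain ⟨h1, h2⟩ := key l hl
  refine ⟨h1, ?_⟩
  calc ((history firstFit l).map Prod.snd).toFinset.card ≤ (range (2 * w + 1)).card := by
        apply card_le_card
        intro c hc
        rw [List.mem_toFinset, List.mem_map] at hc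
        obtain ⟨p, hp, rfl⟩ := hc
        exact mem_range.mpr (h2 p hp)
    _ = 2 * w + 1 := card_range _

/-- The value `f w` is attained. -/
theorem exists_handles (w : ℕ) : ∃ σ : Strategy, Handles w (f w) σ :=
  Nat.sInf_mem (s := {k : ℕ | ∃ σ : Strategy, Handles w k σ}) ⟨_, firstFit, handles_firstFit w⟩

end H66Tok
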