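import Mathlib
import Pool.Agent.H66.TokDefs

/-!
Explicit winning strategy of Spoiler in the parity pointer game on five sites,
`K + 1 = ⌊(8w+1)/5⌋`.
-/

namespace H66Tok

/-- Facts that hold along every play. -/
def Glob (K : ℕ) (s : St) : Prop := (∀ e, s.n e ≤ s.k (e % 2)) ∧ s.k 0 + s.k 1 ≤ K

theorem glob_L {K : ℕ} {s : St} (G : Glob K s) (z : ℕ)
    (h : s.n (z - 1) < s.k ((z - 1) % 2)) : Glob K (s.playL z) := by
  refine ⟨fun e => ?_, G.2⟩
  have := G.1 e
  by_cases he : e + 1 = z
  · subst he
    simp only [St.playL, if_true]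
    simpa using h
  · simpa [St.playL, he] using this

theorem glob_R {K : ℕ} {s : St} (G : Glob K s) (z : ℕ)
    (h : s.n z < s.k (z % 2)) : Glob K (s.playR z) := by
  refine ⟨fun e => ?_, G.2⟩
  have := G.1 e
  by_cases he : e = z
  · subst he
    simpa [St.playR] using h
  · simpa [St.playR, he] using this

theorem glob_N {K : ℕ} {s : St} (G : Glob K s) (z : ℕ) (hz : 1 ≤ z) (d : Bool)
    (h : s.k 0 + s.k 1 < K) : Glob K (s.new z d) := by
  cases d
  · refine ⟨fun e => ?_, ?_⟩
    · have := G.1 e
      by_cases he : e = z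
      · subst he
        simpa [St.new, St.playR, St.addk] using this
      · simp only [St.new, St.playR, St.addk]
        simp
        split_ifs <;> omega
    · have : z % 2 = 0 ∨ z % 2 = 1 := by omega
      rcases this with h0 | h0 <;> simp [St.new, St.playR, St.addk, h0] <;> omega
  · refine ⟨fun e => ?_, ?_⟩
    · have := G.1 e
      by_cases he : e + 1 = z
      · subst he
        simpa [St.new, St.playL, St.addk] using this
      · simp only [St.new, St.playL, St.addk]
        simp
        split_ifs <;> omega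
    · have : (z - 1) % 2 = 0 ∨ (z - 1) % 2 = 1 := by omega
      rcases this with h0 | h0 <;> simp [St.new, St.playL, St.addk, h0] <;> omega

/-- Region R1 at the second site. -/
theorem region_R {w K e : ℕ} (hK : K + 1 = w + e) :
    ∀ m (s : St), Glob K s → w - s.M 2 ≤ m → s.M 2 + e ≤ s.n 1 + s.n 2 → SpWin w K s := by
  intro m
  induction m with
  | zero =>
    intro s G hm h
    exfalso
    have h1 := G.1 1
    have h2 := G.1 2
    have h3 := G.2
    norm_num at h1 h2
    omega
  | succ m ih =>
    intro s G hm h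
    have h1 := G.1 1
    have h2 := G.1 2
    have h3 := G.2
    norm_num at h1 h2
    have hM : s.M 2 < w := by omega
    refine SpWin.step s 2 true (by norm_num) hM ?_ ?_ ?_
    · intro hl
      refine ih _ (glob_L G 2 hl) ?_ ?_
      · simp [St.playL]; omega
      · simp [St.playL]; omega
    · intro hl
      refine ih _ (glob_R G 2 hl) ?_ ?_
      · simp [St.playR]; omega
      · simp [St.playR]; omega
    · intro hl
      refine ih _ (glob_N G 2 (by norm_num) true hl) ?_ ?_
      · simp [St.new, St.playL, St.addk]; omega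
      · simp [St.new, St.playL, St.addk]; omega

/-- Region F. -/
theorem region_F {w K e : ℕ} (hK : K + 1 = w + e) :
    ∀ m (s : St), Glob K s → w - s.M 3 ≤ m → e ≤ s.n 1 →
      s.M 2 + s.M 3 + s.k 1 + e ≤ w + s.n 1 + s.n 2 + s.n 3 → SpWin w K s := by
  intro m
  induction m with
  | zero =>
    intro s G hm h1 h
    have h3 := G.1 3
    norm_num at h3
    exact region_R hK _ s G le_rfl (by omega)
  | succ m ih =>
    intro s G hm h1 h
    have h3 := G.1 3
    norm_num at h3
    by_cases ha : s.M 3 < w ∧ s.n 2 < s.M 2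
    · obtain ⟨hM, hn⟩ := ha
      refine SpWin.step s 3 true (by norm_num) hM ?_ ?_ ?_
      · intro hl
        refine ih _ (glob_L G 3 hl) ?_ ?_ ?_
        · simp [St.playL]; omega
        · simp [St.playL]; omega
        · simp [St.playL]; omega
      · intro hl
        refine ih _ (glob_R G 3 hl) ?_ ?_ ?_
        · simp [St.playR]; omega
        · simp [St.playR]; omega
        · simp [St.playR]; omega
      · intro hl
        refine ih _ (glob_N G 3 (by norm_num) true hl) ?_ ?_ ?_
        · simp [St.new, St.playL, St.addk]; omega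
        · simp [St.new, St.playL, St.addk]; omega
        · simp [St.new, St.playL, St.addk]; omega
    · exact region_R hK _ s G le_rfl (by omega)

/-- Region X3. -/
theorem region_X3 {w K e : ℕ} (hK : K + 1 = w + e) :
    ∀ m (s : St), Glob K s → w - s.M 4 ≤ m → e ≤ s.n 1 →
      s.M 2 + s.k 1 + e ≤ w + s.n 1 + s.n 2 →
      2 * e + s.M 2 + s.M 3 + s.M 4 ≤ w + 1 + s.n 1 + s.n 2 + s.n 3 + s.n 4 → SpWin w K s := by
  intro m
  induction m with
  | zero =>
    intro s G hm h1 h2 h
    have h4 := G.1 4
    have h5 := G.2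
    norm_num at h4
    exact region_F hK _ s G le_rfl h1 (by omega)
  | succ m ih =>
    intro s G hm h1 h2 h
    have h4 := G.1 4
    have h5 := G.2
    norm_num at h4
    by_cases ha : s.M 2 + s.M 3 + s.k 1 + e ≤ w + s.n 1 + s.n 2 + s.n 3
    · exact region_F hK _ s G le_rfl h1 ha
    · have hM : s.M 4 < w := by omega
      have hn : s.n 3 < s.M 3 := by omega
      refine SpWin.step s 4 false (by norm_num) hM ?_ ?_ ?_
      · intro hl
        refine ih _ (glob_L G 4 hl) ?_ ?_ ?_ ?_
        · simp [St.playL]; omega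
        · simp [St.playL]; omega
        · simp [St.playL]; omega
        · simp [St.playL]; omega
      · intro hl
        refine ih _ (glob_R G 4 hl) ?_ ?_ ?_ ?_
        · simp [St.playR]; omega
        · simp [St.playR]; omega
        · simp [St.playR]; omega
        · simp [St.playR]; omega
      · intro hl
        refine ih _ (glob_N G 4 (by norm_num) false hl) ?_ ?_ ?_ ?_
        · simp [St.new, St.playR, St.addk]; omega
        · simp [St.new, St.playR, St.addk]; omega
        · simp [St.new, St.playR, St.addk]; omega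
        · simp [St.new, St.playR, St.addk]; omega

/-- Region X4. -/
theorem region_X4 {w K e : ℕ} (hK : K + 1 = w + e) :
    ∀ m (s : St), Glob K s → w - s.M 5 ≤ m → e ≤ s.n 1 →
      s.M 2 + s.k 1 + e ≤ w + s.n 1 + s.n 2 →
      2 * e + s.M 2 + s.M 3 ≤ w + 1 + s.n 1 + s.n 2 + s.n 3 →
      s.k 1 + 2 * e + s.M 2 + s.M 3 + s.M 4 + s.M 5 ≤
        2 * w + 1 + s.n 1 + s.n 2 + s.n 3 + s.n 4 + s.n 5 → SpWin w K s := by
  intro m
  induction m with
  | zero =>
    intro s G hm h1 h2 h3 h
    have h5 := G.1 5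
    norm_num at h5
    exact region_X3 hK _ s G le_rfl h1 h2 (by omega)
  | succ m ih =>
    intro s G hm h1 h2 h3 h
    have h5 := G.1 5
    norm_num at h5
    by_cases ha : 2 * e + s.M 2 + s.M 3 + s.M 4 ≤ w + 1 + s.n 1 + s.n 2 + s.n 3 + s.n 4
    · exact region_X3 hK _ s G le_rfl h1 h2 ha
    · have hM : s.M 5 < w := by omega
      have hn : s.n 4 < s.M 4 := by omega
      refine SpWin.step s 5 true (by norm_num) hM ?_ ?_ ?_
      · intro hl
        refine ih _ (glob_L G 5 hl) ?_ ?_ ?_ ?_ ?_
        · simp [St.playL]; omega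
        · simp [St.playL]; omega
        · simp [St.playL]; omega
        · simp [St.playL]; omega
        · simp [St.playL]; omega
      · intro hl
        refine ih _ (glob_R G 5 hl) ?_ ?_ ?_ ?_ ?_
        · simp [St.playR]; omega
        · simp [St.playR]; omega
        · simp [St.playR]; omega
        · simp [St.playR]; omega
        · simp [St.playR]; omega
      · intro hl
        refine ih _ (glob_N G 5 (by norm_num) true hl) ?_ ?_ ?_ ?_ ?_
        · simp [St.new, St.playL, St.addk]; omega
        · simp [St.new, St.playL, St.addk]; omega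
        · simp [St.new, St.playL, St.addk]; omega
        · simp [St.new, St.playL, St.addk]; omega
        · simp [St.new, St.playL, St.addk]; omega

/-- Phase P3. -/
theorem region_P3 {w K e : ℕ} (hK : K + 1 = w + e) :
    ∀ m (s : St), Glob K s → w - s.M 1 ≤ m → e ≤ s.M 2 →
      s.M 1 + e + s.k 0 ≤ w + s.n 1 + s.n 0 →
      s.M 2 + s.k 1 + e ≤ w + s.n 1 + s.n 2 →
      e + s.M 2 + s.M 3 ≤ w + 1 + s.n 2 + s.n 3 →
      s.k 1 + 2 * e + s.M 2 + s.M 3 + s.M 4 + s.M 5 ≤
        2 * w + 1 + s.n 1 + s.n 2 + s.n 3 + s.n 4 + s.n 5 → SpWin w K s := by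
  intro m
  induction m with
  | zero =>
    intro s G hm h1 h2 h3 h4 h
    have h0 := G.1 0
    norm_num at h0
    exact region_X4 hK _ s G le_rfl (by omega) h3 (by omega) h
  | succ m ih =>
    intro s G hm h1 h2 h3 h4 h
    have h0 := G.1 0
    norm_num at h0
    by_cases ha : e ≤ s.n 1
    · exact region_X4 hK _ s G le_rfl ha h3 (by omega) h
    · have hM : s.M 1 < w := by omega
      refine SpWin.step s 1 false (by norm_num) hM ?_ ?_ ?_
      · intro hl
        refine ih _ (glob_L G 1 hl) ?_ ?_ ?_ ?_ ?_ ?_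
        · simp [St.playL]; omega
        · simp [St.playL]; omega
        · simp [St.playL]; omega
        · simp [St.playL]; omega
        · simp [St.playL]; omega
        · simp [St.playL]; omega
      · intro hl
        refine ih _ (glob_R G 1 hl) ?_ ?_ ?_ ?_ ?_ ?_
        · simp [St.playR]; omega
        · simp [St.playR]; omega
        · simp [St.playR]; omega
        · simp [St.playR]; omega
        · simp [St.playR]; omega
        · simp [St.playR]; omega
      · intro hl
        refine ih _ (glob_N G 1 (by norm_num) false hl) ?_ ?_ ?_ ?_ ?_ ?_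
        · simp [St.new, St.playR, St.addk]; omega
        · simp [St.new, St.playR, St.addk]; omega
        · simp [St.new, St.playR, St.addk]; omega
        · simp [St.new, St.playR, St.addk]; omega
        · simp [St.new, St.playR, St.addk]; omega
        · simp [St.new, St.playR, St.addk]; omega

/-- The invariant of phase P2. -/
structure InvP2 (p q : ℕ) (s : St) : Prop where
  n0 : s.n 0 = 0
  k0 : s.k 0 = s.n 2
  M2 : s.M 2 = s.n 1 + s.n 2
  M1 : s.M 1 = s.n 1
  M3 : s.M 3 = p + q
  M4 : s.M 4 = q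
  M5 : s.M 5 = 0
  n3 : s.n 3 = q
  n4 : s.n 4 = 0
  n5 : s.n 5 = 0
  n2 : s.n 2 ≤ p + q
  k1a : q ≤ s.k 1
  k1b : s.k 1 ≤ q + s.n 1
  alt : s.k 1 = q ∨ s.n 2 = p + q

theorem region_P2 {w K e p q : ℕ} (hK : K + 1 = w + e) (hepq : p + 2 * q ≤ e)
    (hw1 : e + p + q ≤ w) (hw2 : 2 * e ≤ w + 1 + q) (hw3 : 2 * e ≤ w + p)
    (hw4 : 3 * e + q ≤ 2 * w + 1) :
    ∀ m (s : St), Glob K s → e - s.M 2 ≤ m → s.M 2 ≤ e → InvP2 p q s → SpWin w K s := by
  have fin : ∀ s : St, Glob K s → s.M 2 = e → InvP2 p q s → SpWin w K s := by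
    intro s G hM I
    have h1 := G.1 1
    norm_num at h1
    obtain ⟨n0, k0, M2, M1, M3, M4, M5, n3, n4, n5, n2, k1a, k1b, alt⟩ := I
    refine region_P3 hK _ s G le_rfl ?_ ?_ ?_ ?_ ?_ <;> omega
  intro m
  induction m with
  | zero =>
    intro s G hm hM I
    exact fin s G (by omega) I
  | succ m ih =>
    intro s G hm hM I
    by_cases hMe : s.M 2 = e
    · exact fin s G hMe I
    · have h1 := G.1 1
      norm_num at h1
      have hMw : s.M 2 < w := by omega
      by_cases hpq : s.n 2 < p + q
      · refine SpWin.step s 2 false (by norm_num) hMw ?_ ?_ ?_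
        · intro hl
          obtain ⟨n0, k0, M2, M1, M3, M4, M5, n3, n4, n5, n2, k1a, k1b, alt⟩ := I
          refine ih _ (glob_L G 2 hl) ?_ ?_ ⟨?_, ?_, ?_, ?_, ?_, ?_, ?_, ?_, ?_, ?_, ?_, ?_, ?_, ?_⟩ <;>
          · simp [St.playL]; try omega
        · intro hl
          exfalso
          have := I.k0
          norm_num at hl
          omega
        · intro hl
          obtain ⟨n0, k0, M2, M1, M3, M4, M5, n3, n4, n5, n2, k1a, k1b, alt⟩ := I
          refine ih _ (glob_N G 2 (by norm_num) false hl) ?_ ?_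
            ⟨?_, ?_, ?_, ?_, ?_, ?_, ?_, ?_, ?_, ?_, ?_, ?_, ?_, ?_⟩ <;>
          · simp [St.new, St.playR, St.addk]; try omega
      · refine SpWin.step s 2 true (by norm_num) hMw ?_ ?_ ?_
        · intro hl
          obtain ⟨n0, k0, M2, M1, M3, M4, M5, n3, n4, n5, n2, k1a, k1b, alt⟩ := I
          refine ih _ (glob_L G 2 hl) ?_ ?_ ⟨?_, ?_, ?_, ?_, ?_, ?_, ?_, ?_, ?_, ?_, ?_, ?_, ?_, ?_⟩ <;>
          · simp [St.playL]; try omega
        · intro hl
          exfalso
          have := I.k0
          norm_num at hl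
          omega
        · intro hl
          obtain ⟨n0, k0, M2, M1, M3, M4, M5, n3, n4, n5, n2, k1a, k1b, alt⟩ := I
          refine ih _ (glob_N G 2 (by norm_num) true hl) ?_ ?_
            ⟨?_, ?_, ?_, ?_, ?_, ?_, ?_, ?_, ?_, ?_, ?_, ?_, ?_, ?_⟩ <;>
          · simp [St.new, St.playL, St.addk]; try omega

/-- The invariant of phase P1. -/
structure InvP1 (i j : ℕ) (s : St) : Prop where
  n0 : s.n 0 = 0
  n1 : s.n 1 = 0
  n2 : s.n 2 = i
  n3 : s.n 3 = j
  n4 : s.n 4 = 0
  n5 : s.n 5 = 0
  k0 : s.k 0 = i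
  k1 : s.k 1 = j
  M1 : s.M 1 = 0
  M2 : s.M 2 = i
  M3 : s.M 3 = i + j
  M4 : s.M 4 = j
  M5 : s.M 5 = 0

theorem region_P1 {w K e p q : ℕ} (hK : K + 1 = w + e) (hepq : p + 2 * q ≤ e)
    (hw1 : e + p + q ≤ w) (hw2 : 2 * e ≤ w + 1 + q) (hw3 : 2 * e ≤ w + p)
    (hw4 : 3 * e + q ≤ 2 * w + 1) :
    ∀ m i j (s : St), Glob K s → (p - i) + (q - j) ≤ m → i ≤ p → j ≤ q →
      (j = 0 ∨ i = p) → InvP1 i j s → SpWin w K s := by
  have fin : ∀ s : St, Glob K s → InvP1 p q s → SpWin w K s := by
    intro s G I
    obtain ⟨n0, n1, n2, n3, n4, n5, k0, k1, M1, M2, M3, M4, M5⟩ := I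
    refine region_P2 hK hepq hw1 hw2 hw3 hw4 _ s G le_rfl ?_
      ⟨?_, ?_, ?_, ?_, ?_, ?_, ?_, ?_, ?_, ?_, ?_, ?_, ?_, ?_⟩ <;> omega
  intro m
  induction m with
  | zero =>
    intro i j s G hm hi hj hij I
    have : i = p := by omega
    subst this
    have : j = q := by omega
    subst this
    exact fin s G I
  | succ m ih =>
    intro i j s G hm hi hj hij I
    by_cases hip : i < p
    · have hMw : s.M 3 < w := by
        have := I.M3
        omega
      refine SpWin.step s 3 true (by norm_num) hMw ?_ ?_ ?_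
      · intro hl
        exfalso
        have h1 := I.n2
        have h2 := I.k0
        norm_num at hl
        omega
      · intro hl
        exfalso
        have h1 := I.n3
        have h2 := I.k1
        norm_num at hl
        omega
      · intro hl
        obtain ⟨n0, n1, n2, n3, n4, n5, k0, k1, M1, M2, M3, M4, M5⟩ := I
        refine ih (i + 1) j _ (glob_N G 3 (by norm_num) true hl) (by omega) (by omega) hj (by omega)
          ⟨?_, ?_, ?_, ?_, ?_, ?_, ?_, ?_, ?_, ?_, ?_, ?_, ?_⟩ <;>
        · simp [St.new, St.playL, St.addk]; try omega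
    · have hip' : i = p := by omega
      subst hip'
      by_cases hjq : j < q
      · have hMw : s.M 3 < w := by
          have := I.M3
          omega
        refine SpWin.step s 3 false (by norm_num) hMw ?_ ?_ ?_
        · intro hl
          exfalso
          have h1 := I.n2
          have h2 := I.k0
          norm_num at hl
          omega
        · intro hl
          exfalso
          have h1 := I.n3
          have h2 := I.k1
          norm_num at hl
          omega
        · intro hl
          obtain ⟨n0, n1, n2, n3, n4, n5, k0, k1, M1, M2, M3, M4, M5⟩ := I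
          refine ih i (j + 1) _ (glob_N G 3 (by norm_num) false hl) (by omega) (by omega) (by omega)
            (by omega) ⟨?_, ?_, ?_, ?_, ?_, ?_, ?_, ?_, ?_, ?_, ?_, ?_, ?_⟩ <;>
          · simp [St.new, St.playR, St.addk]; try omega
      · have : j = q := by omega
        subst this
        exact fin s G I

/-- **Spoiler wins** with `K + 1 = ⌊(8w+1)/5⌋`. -/
theorem spWin_init (w : ℕ) (hw : 1 ≤ w) : SpWin w ((8 * w + 1) / 5 - 1) St.init := by
  have key : ∃ e p q : ℕ, (8 * w + 1) / 5 - 1 + 1 = w + e ∧ p + 2 * q ≤ e ∧ e + p + q ≤ w ∧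
      2 * e ≤ w + 1 + q ∧ 2 * e ≤ w + p ∧ 3 * e + q ≤ 2 * w + 1 := by
    have hb : w % 5 = 0 ∨ w % 5 = 1 ∨ w % 5 = 2 ∨ w % 5 = 3 ∨ w % 5 = 4 := by omega
    rcases hb with hb | hb | hb | hb | hb
    · exact ⟨3 * (w / 5), w / 5, w / 5, by omega, by omega, by omega, by omega, by omega, by omega⟩
    · exact ⟨3 * (w / 5), w / 5, w / 5, by omega, by omega, by omega, by omega, by omega, by omega⟩
    · exact ⟨3 * (w / 5) + 1, w / 5, w / 5, by omega, by omega, by omega, by omega, by omega,
        by omega⟩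
    · exact ⟨3 * (w / 5) + 2, w / 5 + 1, w / 5, by omega, by omega, by omega, by omega, by omega,
        by omega⟩
    · exact ⟨3 * (w / 5) + 2, w / 5, w / 5, by omega, by omega, by omega, by omega, by omega,
        by omega⟩
  obtain ⟨e, p, q, h1, h2, h3, h4, h5, h6⟩ := key
  refine region_P1 h1 h2 h3 h4 h5 h6 _ 0 0 St.init ?_ le_rfl (Nat.zero_le _) (Nat.zero_le _)
    (Or.inl rfl) ?_
  · exact ⟨fun _ => le_rfl, Nat.zero_le _⟩
  · exact ⟨rfl, rfl, rfl, rfl, rfl, rfl, rfl, rfl, rfl, rfl, rfl, rfl, rfl⟩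

end H66Tok
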